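import Pool.Agent.H.MP_391ee8_lc.A

namespace Pool.Agent.Results.MP_391ee8_lc.Hard

open Pool.Agent.Lib.CX Pool.Agent.H.MP_391ee8_lc

theorem result (p : ℕ) (h2 : 2 ≤ p) (h6 : p ≤ 6) :
    NPHard fun a : {a : Gr × List ℕ // Perfect a.1.G ∧ a.1.G.Colorable 2 ∧ a.1.G ≠ ⊥ ∧
        IsCol a.1.G 7 fun u => a.2.getD u 0} =>
      ChiLe a.1.1.G 7 (fun u => a.1.2.getD u 0) p := hard p h2 h6

end Pool.Agent.Results.MP_391ee8_lc.Hard
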